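import Mathlib

set_option autoImplicit false

namespace Pool.Agent.Results.MP_c0911c_al.CriticalRings

universe u

/-- Terms in the language `(+, -, 0, *)` of (not necessarily unital) rings over the variables
`x_0, x_1, x_2, …`. -/
inductive RTerm where
  | var : ℕ → RTerm
  | zero : RTerm
  | add : RTerm → RTerm → RTerm
  | neg : RTerm → RTerm
  | mul : RTerm → RTerm → RTerm

/-- The value of a term in a ring `R` under the assignment `v` of the variables. -/
def RTerm.eval {R : Type u} [NonUnitalRing R] (v : ℕ → R) : RTerm → R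
  | .var n => v n
  | .zero => 0
  | .add s t => s.eval v + t.eval v
  | .neg s => -s.eval v
  | .mul s t => s.eval v * t.eval v

/-- The identity `s = t` holds in the ring `R`. -/
def Holds (R : Type u) [NonUnitalRing R] (s t : RTerm) : Prop :=
  ∀ v : ℕ → R, s.eval v = t.eval v

/-- `R` is critical: some identity `s = t` holds in every proper quotient ring `R/I` (`I` a nonzero
two-sided ideal) but fails in `R`. -/
def IsCritical (R : Type u) [NonUnitalRing R] : Prop :=
  ∃ s t : RTerm, (∀ I : TwoSidedIdeal R, I ≠ ⊥ → Holds I.ringCon.Quotient s t) ∧ ¬ Holds R s t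

/-- `R` has a least nonzero two-sided ideal, that is, `R` is subdirectly irreducible and nonzero. -/
def HasLeastIdeal (R : Type u) [NonUnitalRing R] : Prop :=
  ∃ M : TwoSidedIdeal R, M ≠ ⊥ ∧ ∀ I : TwoSidedIdeal R, I ≠ ⊥ → M ≤ I

/-- `pw x k = x ^ (k + 1)`. -/
def pw {R : Type u} [Mul R] (x : R) : ℕ → R
  | 0 => x
  | k + 1 => pw x k * x

/-- `x` is nilpotent: `x ^ (k + 1) = 0` for some `k`. -/
def IsNil {R : Type u} [NonUnitalRing R] (x : R) : Prop := ∃ k, pw x k = 0

/-- `R` has an identity element `e ≠ 0`, every element of `R` is nilpotent or invertible (so that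
`R` is local with maximal ideal `J` = the nilpotent elements) and the socle
`{x | J x = 0}` is generated by one nonzero element `w` (so that it is a one-dimensional vector
space over the residue field). -/
def LocalType (R : Type u) [NonUnitalCommRing R] : Prop :=
  ∃ e : R, e ≠ 0 ∧ (∀ x, e * x = x) ∧ (∀ x : R, IsNil x ∨ ∃ y, y * x = e) ∧
    ∃ w : R, w ≠ 0 ∧ ∀ x : R, (∀ n : R, IsNil n → n * x = 0) ↔ ∃ r, x = r * w

/-- `R` is nonzero, every element of `R` is nilpotent (so that `R` is nilpotent if it is finite) and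
the annihilator `{x | R x = 0}` is a cyclic group of prime power order, generated by `w`. -/
def NilType (R : Type u) [NonUnitalCommRing R] : Prop :=
  (∃ x : R, x ≠ 0) ∧ (∀ x : R, IsNil x) ∧
    ∃ (w : R) (p j : ℕ), p.Prime ∧ (p ^ j) • w = 0 ∧
      ∀ x : R, (∀ r, r * x = 0) ↔ ∃ m : ℤ, x = m • w

section basic

variable {R : Type u} [NonUnitalCommRing R]

lemma eval_coe (c : RingCon R) (v : ℕ → R) (t : RTerm) :
    t.eval (fun n => (v n : c.Quotient)) = ((t.eval v : R) : c.Quotient) := by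
  induction t with
  | var n => rfl
  | zero => rfl
  | add s t hs ht => simp only [RTerm.eval, hs, ht, RingCon.coe_add]
  | neg s hs => simp only [RTerm.eval, hs, RingCon.coe_neg]
  | mul s t hs ht => simp only [RTerm.eval, hs, ht, RingCon.coe_mul]

lemma holds_quot_iff (I : TwoSidedIdeal R) (s t : RTerm) :
    Holds I.ringCon.Quotient s t ↔ ∀ v : ℕ → R, s.eval v - t.eval v ∈ I := by
  constructor
  · intro h v
    have := h (fun n => (v n : I.ringCon.Quotient))
    rw [eval_coe, eval_coe] at this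
    rw [← TwoSidedIdeal.rel_iff]
    exact (RingCon.eq _).1 this
  · intro h w
    have hs : ∀ n, ∃ x : R, (x : I.ringCon.Quotient) = w n := fun n => by
      obtain ⟨x, hx⟩ := Quotient.exists_rep (w n)
      exact ⟨x, hx⟩
    choose v hv using hs
    have hw : w = fun n => (v n : I.ringCon.Quotient) := by
      funext n; exact (hv n).symm
    rw [hw, eval_coe, eval_coe]
    exact (RingCon.eq _).2 ((TwoSidedIdeal.rel_iff _ _ _).2 (h v))

lemma least_of_critical (h : IsCritical R) : HasLeastIdeal R := by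
  obtain ⟨s, t, h1, h2⟩ := h
  refine ⟨sInf {I | I ≠ ⊥}, ?_, fun I hI => sInf_le hI⟩
  intro hM
  apply h2
  intro v
  have : s.eval v - t.eval v ∈ sInf {I : TwoSidedIdeal R | I ≠ ⊥} := by
    rw [TwoSidedIdeal.mem_sInf]
    intro I hI
    exact (holds_quot_iff I s t).1 (h1 I hI) v
  rw [hM, TwoSidedIdeal.mem_bot] at this
  exact sub_eq_zero.1 this

/-- the unital ring `ℤ ⊕ R` -/
def U (R : Type u) [NonUnitalCommRing R] : Type u := Unitization ℤ R

noncomputable instance : CommRing (U R) := inferInstanceAs (CommRing (Unitization ℤ R))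

instance : Nontrivial (U R) := inferInstanceAs (Nontrivial (Unitization ℤ R))

/-- the embedding of `R` into `ℤ ⊕ R` -/
noncomputable def emb : R →ₙ+* U R where
  toFun x := (Unitization.inr x : Unitization ℤ R)
  map_mul' x y := Unitization.inr_mul ℤ x y
  map_zero' := Unitization.inr_zero ℤ
  map_add' x y := Unitization.inr_add ℤ x y

lemma emb_injective : Function.Injective (emb : R → U R) :=
  Unitization.inr_injective (R := ℤ)

lemma emb_neg (x : R) : emb (-x) = -emb x := map_neg emb x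

lemma emb_pw (x : R) (k : ℕ) : emb (pw x k) = (emb x) ^ (k + 1) := by
  induction k with
  | zero => simp [pw]
  | succ k ih => rw [pw, map_mul, ih, ← pow_succ]

lemma isNil_iff (x : R) : IsNil x ↔ IsNilpotent (emb x) := by
  constructor
  · rintro ⟨k, hk⟩
    refine ⟨k + 1, ?_⟩
    rw [← emb_pw, hk, map_zero]
  · rintro ⟨k, hk⟩
    cases k with
    | zero => simp at hk
    | succ k =>
      refine ⟨k, ?_⟩
      rw [← emb_pw] at hk
      exact emb_injective (by rw [hk, map_zero])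

lemma exists_ideal (c : R → Prop) (h0 : c 0) (ha : ∀ x y, c x → c y → c (x + y))
    (hn : ∀ x, c x → c (-x)) (hm : ∀ x y, c y → c (x * y)) :
    ∃ I : TwoSidedIdeal R, ∀ x, x ∈ I ↔ c x :=
  ⟨TwoSidedIdeal.mk' {x | c x} h0 (fun {x y} => ha x y) (fun {x} => hn x) (fun {x y} => hm x y)
    (fun {x y} hx => by rw [mul_comm]; exact hm y x hx), fun x => TwoSidedIdeal.mem_mk' ..⟩

lemma ne_bot_iff (I : TwoSidedIdeal R) : I ≠ ⊥ ↔ ∃ x ∈ I, x ≠ 0 := by
  constructor
  · intro h
    by_contra hc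
    push Not at hc
    apply h
    ext x
    rw [TwoSidedIdeal.mem_bot]
    exact ⟨fun hx => hc x hx, fun hx => hx ▸ I.zero_mem⟩
  · rintro ⟨x, hx, hx0⟩ rfl
    exact hx0 ((TwoSidedIdeal.mem_bot R).1 hx)

lemma pw_mul_of_eq (t x : R) (h : x = t * x) (k : ℕ) : x = pw t k * x := by
  induction k with
  | zero => exact h
  | succ k ih =>
    rw [pw, mul_assoc, ← h]
    exact ih

lemma eq_zero_of_nil (t x : R) (ht : IsNil t) (h : x = t * x) : x = 0 := by
  obtain ⟨k, hk⟩ := ht
  rw [pw_mul_of_eq t x h k, hk, zero_mul]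

lemma nil_mul (r n : R) (hn : IsNil n) : IsNil (r * n) := by
  rw [isNil_iff] at hn ⊢
  rw [map_mul]
  exact (Commute.all _ _).isNilpotent_mul_left hn

lemma nil_neg (n : R) (hn : IsNil n) : IsNil (-n) := by
  rw [isNil_iff] at hn ⊢
  rw [emb_neg]
  exact hn.neg

lemma nil_add (m n : R) (hm : IsNil m) (hn : IsNil n) : IsNil (m + n) := by
  rw [isNil_iff] at hn hm ⊢
  rw [map_add]
  exact (Commute.all _ _).isNilpotent_add hm hn

lemma nil_zsmul (m : ℤ) (n : R) (hn : IsNil n) : IsNil (m • n) := by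
  rw [isNil_iff] at hn ⊢
  rw [map_zsmul]
  obtain ⟨k, hk⟩ := hn
  exact ⟨k, by rw [zsmul_eq_mul, mul_pow, hk, mul_zero]⟩

/-- iterated products -/
def prd (x : R) (y : ℕ → R) : ℕ → R
  | 0 => x
  | k + 1 => prd x y k * y k

lemma prd_congr (x : R) (y z : ℕ → R) (k : ℕ) (h : ∀ i < k, y i = z i) :
    prd x y k = prd x z k := by
  induction k with
  | zero => rfl
  | succ k ih => rw [prd, prd, ih (fun i hi => h i (by omega)), h k (by omega)]

lemma exists_idem [Finite R] : ∃ N : ℕ, ∀ x : R, pw x N * pw x N = pw x N := by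
  have h1 : ∀ x : R, ∃ n : ℕ, 0 < n ∧ IsIdempotentElem ((emb x) ^ n) := by
    intro x
    obtain ⟨a, b, hab, h⟩ := Finite.exists_ne_map_eq_of_infinite (pw x)
    wlog hlt : a < b generalizing a b with H
    · exact H b a hab.symm h.symm (by omega)
    generalize hX : emb x = X
    have h2 : X ^ (a + 1) * X ^ (b - a) = X ^ (a + 1) := by
      rw [← pow_add, show a + 1 + (b - a) = b + 1 by omega, ← hX, ← emb_pw, ← emb_pw, h]
    have h3 : ∀ k, X ^ (a + 1) * (X ^ (b - a)) ^ k = X ^ (a + 1) := by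
      intro k
      induction k with
      | zero => simp
      | succ k ih => rw [pow_succ (X ^ (b - a)) k, ← mul_assoc, ih, h2]
    refine ⟨(b - a) * (a + 1), by apply Nat.mul_pos <;> omega, ?_⟩
    unfold IsIdempotentElem
    obtain ⟨c, hc⟩ : ∃ c, (b - a) * (a + 1) = c + (a + 1) := by
      refine ⟨(b - a) * (a + 1) - (a + 1), ?_⟩
      have : a + 1 ≤ (b - a) * (a + 1) := Nat.le_mul_of_pos_left _ (by omega)
      omega
    have h4 : X ^ ((b - a) * (a + 1)) = (X ^ (b - a)) ^ (a + 1) := by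
      rw [pow_mul]
    nth_rewrite 2 [h4]
    rw [hc, pow_add, mul_assoc, h3]
  choose n hn hi using h1
  have := Fintype.ofFinite R
  have hN : 0 < ∏ x : R, n x := Finset.prod_pos (fun x _ => hn x)
  refine ⟨(∏ x : R, n x) - 1, fun x => ?_⟩
  apply emb_injective
  rw [map_mul, emb_pw, Nat.sub_add_cancel hN]
  obtain ⟨c, hc⟩ := Finset.dvd_prod_of_mem n (Finset.mem_univ x)
  rw [hc, pow_mul]
  exact (hi x).pow c

lemma exists_prd_zero [Finite R] :
    ∃ s : ℕ, ∀ (x : R) (y : ℕ → R), (∀ i, IsNil (y i)) → prd x y s = 0 := by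
  let I : Ideal (U R) := Ideal.span ((fun x : R => emb x) '' {x | IsNil x})
  have hfg : I.FG := by
    have hfin : ((fun x : R => emb x) '' {x | IsNil x}).Finite := Set.toFinite _
    exact ⟨hfin.toFinset, by simp [I]⟩
  have hle : I ≤ nilradical (U R) := by
    rw [Ideal.span_le]
    rintro _ ⟨x, hx, rfl⟩
    exact (isNil_iff x).1 hx
  obtain ⟨s, hs⟩ := hfg.isNilpotent_iff_le_nilradical.2 hle
  refine ⟨s, fun x y hy => ?_⟩
  have key : ∀ k, emb (prd x y k) ∈ I ^ k := by
    intro k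
    induction k with
    | zero => simp
    | succ k ih =>
      rw [prd, map_mul, pow_succ]
      exact Ideal.mul_mem_mul ih (Ideal.subset_span ⟨y k, hy k, rfl⟩)
  have := key s
  rw [hs] at this
  exact emb_injective (by rw [map_zero]; simpa using this)

end basic

section terms

variable {R : Type u} [NonUnitalCommRing R]

/-- `t ^ (k + 1)` -/
def powT (t : RTerm) : ℕ → RTerm
  | 0 => t
  | k + 1 => .mul (powT t k) t

lemma eval_powT (v : ℕ → R) (t : RTerm) (k : ℕ) : (powT t k).eval v = pw (t.eval v) k := by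
  induction k with
  | zero => rfl
  | succ k ih => simp only [powT, RTerm.eval, ih, pw]

/-- `t ^ (N + 2) - t` -/
def gT (N : ℕ) (t : RTerm) : RTerm := .add (powT t (N + 1)) (.neg t)

/-- `x_0 * g (x_1) * ⋯ * g (x_s)` -/
def prodT (N : ℕ) : ℕ → RTerm
  | 0 => .var 0
  | s + 1 => .mul (prodT N s) (gT N (.var (s + 1)))

/-- `x ^ (N + 2) - x` -/
def gv (N : ℕ) (x : R) : R := pw x (N + 1) + -x

lemma eval_prodT (N : ℕ) (v : ℕ → R) (s : ℕ) :
    (prodT N s).eval v = prd (v 0) (fun i => gv N (v (i + 1))) s := by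
  induction s with
  | zero => rfl
  | succ s ih => simp only [prodT, RTerm.eval, ih, prd, gT, eval_powT, gv]

/-- `n • t` -/
def nsT (t : RTerm) : ℕ → RTerm
  | 0 => .zero
  | n + 1 => .add (nsT t n) t

lemma eval_nsT (v : ℕ → R) (t : RTerm) (n : ℕ) : (nsT t n).eval v = n • t.eval v := by
  induction n with
  | zero => simp [nsT, RTerm.eval]
  | succ n ih => simp only [nsT, RTerm.eval, ih, succ_nsmul]

lemma gv_nil (N : ℕ) (hN : ∀ x : R, pw x N * pw x N = pw x N) (x : R) : IsNil (gv N x) := by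
  rw [isNil_iff]
  refine ⟨N + 1, ?_⟩
  have h : (emb x) ^ (N + 1) * (emb x) ^ (N + 1) = (emb x) ^ (N + 1) := by
    rw [← emb_pw, ← map_mul, hN]
  rw [gv, map_add, emb_neg, emb_pw]
  have h2 : (emb x) ^ (N + 1 + 1) + -(emb x) = emb x * ((emb x) ^ (N + 1) - 1) := by ring
  rw [h2, mul_pow, pow_succ ((emb x) ^ (N + 1) - 1) N]
  have h3 : (emb x) ^ (N + 1) * ((emb x) ^ (N + 1) - 1) = 0 := by
    rw [mul_sub, h, mul_one, sub_self]
  linear_combination ((emb x) ^ (N + 1) - 1) ^ N * h3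

lemma gv_neg (N : ℕ) (hN : ∀ x : R, pw x N * pw x N = pw x N) (y : R) (hy : IsNil y) :
    gv N (-y) = y := by
  have h0 : pw (-y) N = 0 := by
    apply eq_zero_of_nil (pw (-y) N) _ _ (hN _).symm
    rw [isNil_iff, emb_pw]
    exact ((isNil_iff _).1 (nil_neg y hy)).pow_succ N
  rw [gv, pw, h0]
  simp

end terms

section classify

variable {R : Type u} [NonUnitalCommRing R]

lemma nil_mul_mem (M : TwoSidedIdeal R)
    (hleast : ∀ I : TwoSidedIdeal R, I ≠ ⊥ → M ≤ I) (n : R) (hn : IsNil n) (m : R) (hm : m ∈ M) :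
    n * m = 0 := by
  by_contra hne
  obtain ⟨I, hI⟩ := exists_ideal (fun x : R => ∃ m ∈ M, x = n * m) ⟨0, M.zero_mem, by simp⟩
    (by rintro _ _ ⟨a, ha, rfl⟩ ⟨b, hb, rfl⟩; exact ⟨a + b, M.add_mem ha hb, by rw [mul_add]⟩)
    (by rintro _ ⟨a, ha, rfl⟩; exact ⟨-a, M.neg_mem ha, by simp⟩)
    (by rintro x _ ⟨a, ha, rfl⟩; exact ⟨x * a, M.mul_mem_left _ _ ha, by rw [mul_left_comm]⟩)
  have hI' : I ≠ ⊥ := (ne_bot_iff I).2 ⟨n * m, (hI _).2 ⟨m, hm, rfl⟩, hne⟩
  have hle := hleast I hI'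
  have key : ∀ k, ∀ m ∈ M, ∃ m' ∈ M, m = pw n k * m' := by
    intro k
    induction k with
    | zero =>
      intro m hm
      exact (hI _).1 (hle hm)
    | succ k ih =>
      intro m hm
      obtain ⟨m1, hm1, h1⟩ := ih m hm
      obtain ⟨m2, hm2, h2⟩ := (hI _).1 (hle hm1)
      exact ⟨m2, hm2, by rw [h1, h2, pw, mul_assoc]⟩
  obtain ⟨k, hk⟩ := hn
  obtain ⟨m', _, h'⟩ := key k m hm
  rw [hk, zero_mul] at h'
  exact hne (by rw [h', mul_zero])

lemma exists_prime [Finite R] (M : TwoSidedIdeal R) (hM : M ≠ ⊥)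
    (hleast : ∀ I : TwoSidedIdeal R, I ≠ ⊥ → M ≤ I) :
    ∃ p : ℕ, p.Prime ∧ (∀ m ∈ M, p • m = 0) ∧ ∃ a, ∀ x : R, (p ^ a) • x = 0 := by
  obtain ⟨m, hm, hm0⟩ := (ne_bot_iff M).1 hM
  have ho : addOrderOf m ≠ 1 := by rwa [Ne, AddMonoid.addOrderOf_eq_one_iff]
  have hpos : 0 < addOrderOf m := addOrderOf_pos m
  obtain ⟨p, hp, hpd⟩ := Nat.exists_prime_and_dvd ho
  have hideal : ∀ c : ℕ, ∃ I : TwoSidedIdeal R, ∀ x, x ∈ I ↔ c • x = 0 := fun c =>
    exists_ideal (fun x => c • x = 0) (smul_zero c)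
      (by intro a b ha hb; rw [smul_add, ha, hb, add_zero])
      (by intro a ha; rw [smul_neg, ha, neg_zero])
      (by intro a b hb; rw [← mul_smul_comm, hb, mul_zero])
  have hMp : ∀ m ∈ M, p • m = 0 := by
    obtain ⟨I, hI⟩ := hideal p
    have : I ≠ ⊥ := by
      rw [ne_bot_iff]
      obtain ⟨c, hc⟩ := hpd
      refine ⟨c • m, (hI _).2 ?_, ?_⟩
      · rw [← mul_smul, ← hc, addOrderOf_nsmul_eq_zero]
      · intro h0
        have hd := addOrderOf_dvd_of_nsmul_eq_zero h0
        have hc0 : 0 < c := by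
          rcases Nat.eq_zero_or_pos c with h | h
          · rw [h, mul_zero] at hc; omega
          · exact h
        have := Nat.le_of_dvd hc0 hd
        rw [hc] at this
        have h2 := hp.two_le
        nlinarith
    intro m hm
    exact (hI m).1 (hleast I this hm)
  refine ⟨p, hp, hMp, ?_⟩
  have hcard : Nat.card R ≠ 0 := Nat.card_pos.ne'
  obtain ⟨a, c, hpc, hc⟩ := Nat.exists_eq_pow_mul_and_not_dvd hcard p hp.ne_one
  refine ⟨a, fun x => ?_⟩
  obtain ⟨I, hI⟩ := hideal c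
  have hbot : I = ⊥ := by
    by_contra hne
    have h1 := (hI m).1 (hleast I hne hm)
    have h2 := hMp m hm
    have d1 := addOrderOf_dvd_of_nsmul_eq_zero h1
    have d2 := addOrderOf_dvd_of_nsmul_eq_zero h2
    have hcop : Nat.Coprime p c := (Nat.Prime.coprime_iff_not_dvd hp).2 hpc
    have := Nat.dvd_gcd d2 d1
    rw [hcop] at this
    exact ho (Nat.dvd_one.1 this)
  have : (p ^ a) • x ∈ I := by
    rw [hI, ← mul_smul, mul_comm, ← hc]
    exact card_nsmul_eq_zero'
  rw [hbot, TwoSidedIdeal.mem_bot] at this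
  exact this

/-- a nonzero idempotent of a subdirectly irreducible commutative ring is an identity element -/
lemma idem_one (M : TwoSidedIdeal R) (hM : M ≠ ⊥)
    (hleast : ∀ I : TwoSidedIdeal R, I ≠ ⊥ → M ≤ I) (e : R) (he : e * e = e) (he0 : e ≠ 0) (x : R) :
    e * x = x := by
  obtain ⟨m, hm, hm0⟩ := (ne_bot_iff M).1 hM
  obtain ⟨I, hI⟩ := exists_ideal (fun x : R => e * x = x) (mul_zero e)
    (by intro a b ha hb; rw [mul_add, ha, hb]) (by intro a ha; rw [mul_neg, ha])
    (by intro a b hb; rw [mul_left_comm, hb])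
  obtain ⟨J, hJ⟩ := exists_ideal (fun x : R => e * x = 0) (mul_zero e)
    (by intro a b ha hb; rw [mul_add, ha, hb, add_zero]) (by intro a ha; rw [mul_neg, ha, neg_zero])
    (by intro a b hb; rw [mul_left_comm, hb, mul_zero])
  have hIb : I ≠ ⊥ := (ne_bot_iff I).2 ⟨e, (hI e).2 he, he0⟩
  have hJb : J = ⊥ := by
    by_contra h
    have h1 := (hI m).1 (hleast I hIb hm)
    have h2 := (hJ m).1 (hleast J h hm)
    exact hm0 (by rw [← h1, h2])
  have h3 : x - e * x ∈ J := (hJ _).2 (by rw [mul_sub, ← mul_assoc, he, sub_self])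
  rw [hJb, TwoSidedIdeal.mem_bot] at h3
  exact (sub_eq_zero.1 h3).symm

lemma local_of_least [Finite R] (M : TwoSidedIdeal R) (hM : M ≠ ⊥)
    (hleast : ∀ I : TwoSidedIdeal R, I ≠ ⊥ → M ≤ I) (x : R) (hx : ¬ IsNil x) : LocalType R := by
  obtain ⟨N, hN⟩ := exists_idem (R := R)
  have hone : ∀ y : R, ¬ IsNil y → ∀ z, pw y N * z = z := by
    intro y hy z
    exact idem_one M hM hleast _ (hN y) (fun h => hy ⟨N, h⟩) z
  have hinv : ∀ y : R, ¬ IsNil y → ∃ z, z * y = pw x N := by
    intro y hy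
    have h1 : pw y N = pw x N := by
      rw [← hone x hx (pw y N), mul_comm, hone y hy]
    rw [← h1]
    cases N with
    | zero => exact ⟨y, hN y⟩
    | succ N => exact ⟨pw y N, rfl⟩
  obtain ⟨w, hw, hw0⟩ := (ne_bot_iff M).1 hM
  refine ⟨pw x N, fun h => hx ⟨N, h⟩, hone x hx, ?_, w, hw0, ?_⟩
  · intro y
    by_cases hy : IsNil y
    · exact Or.inl hy
    · exact Or.inr (hinv y hy)
  · intro z
    constructor
    · intro hz
      by_cases hz0 : z = 0
      · exact ⟨0, by rw [hz0, zero_mul]⟩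
      obtain ⟨I, hI⟩ := exists_ideal (fun y : R => ∃ r, y = r * z) ⟨0, (zero_mul z).symm⟩
        (by rintro _ _ ⟨a, rfl⟩ ⟨b, rfl⟩; exact ⟨a + b, by rw [add_mul]⟩)
        (by rintro _ ⟨a, rfl⟩; exact ⟨-a, by rw [neg_mul]⟩)
        (by rintro a _ ⟨b, rfl⟩; exact ⟨a * b, by rw [mul_assoc]⟩)
      have hIb : I ≠ ⊥ := (ne_bot_iff I).2 ⟨z, (hI z).2 ⟨pw x N, (hone x hx z).symm⟩, hz0⟩
      obtain ⟨r, hr⟩ := (hI w).1 (hleast I hIb hw)
      have hrn : ¬ IsNil r := fun h => hw0 (by rw [hr, hz r h])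
      obtain ⟨y, hy⟩ := hinv r hrn
      exact ⟨y, by rw [hr, ← mul_assoc, hy, hone x hx]⟩
    · rintro ⟨r, rfl⟩ n hn
      rw [mul_left_comm, nil_mul_mem M hleast n hn w hw, mul_zero]

lemma nil_of_least [Finite R] (M : TwoSidedIdeal R) (hM : M ≠ ⊥)
    (hleast : ∀ I : TwoSidedIdeal R, I ≠ ⊥ → M ≤ I) (hnil : ∀ x : R, IsNil x) : NilType R := by
  obtain ⟨m, hm, hm0⟩ := (ne_bot_iff M).1 hM
  obtain ⟨p, hp, hpM, a, hpa⟩ := exists_prime M hM hleast
  have hmA : ∀ r, r * m = 0 := fun r => nil_mul_mem M hleast r (hnil r) m hm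
  -- every nonzero element of the annihilator generates a subgroup containing `M`
  have hZ : ∀ b : R, (∀ r, r * b = 0) → b ≠ 0 → ∀ m ∈ M, ∃ k : ℤ, m = k • b := by
    intro b hb hb0 m hm
    obtain ⟨I, hI⟩ := exists_ideal (fun y : R => ∃ k : ℤ, y = k • b) ⟨0, by simp⟩
      (by rintro _ _ ⟨a, rfl⟩ ⟨b, rfl⟩; exact ⟨a + b, by rw [add_smul]⟩)
      (by rintro _ ⟨a, rfl⟩; exact ⟨-a, by rw [neg_smul]⟩)
      (by rintro a _ ⟨k, rfl⟩; exact ⟨0, by rw [mul_smul_comm, hb, smul_zero, zero_smul]⟩)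
    have hIb : I ≠ ⊥ := (ne_bot_iff I).2 ⟨b, (hI b).2 ⟨1, by simp⟩, hb0⟩
    exact (hI m).1 (hleast I hIb hm)
  -- choose an element of maximal order
  obtain ⟨w, hw, hmax⟩ : ∃ w : R, (∀ r, r * w = 0) ∧
      ∀ x : R, (∀ r, r * x = 0) → addOrderOf x ≤ addOrderOf w := by
    have hfin : {x : R | ∀ r, r * x = 0}.Finite := Set.toFinite _
    obtain ⟨w, hw, h⟩ := Set.exists_max_image _ (fun x : R => addOrderOf x) hfin ⟨m, hmA⟩
    exact ⟨w, hw, h⟩
  have hpow : ∀ x : R, ∃ k, addOrderOf x = p ^ k := by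
    intro x
    obtain ⟨k, _, hk⟩ := (Nat.dvd_prime_pow hp).1 (addOrderOf_dvd_of_nsmul_eq_zero (hpa x))
    exact ⟨k, hk⟩
  have hw0 : w ≠ 0 := by
    rintro rfl
    have := hmax m hmA
    rw [addOrderOf_zero] at this
    have h1 : addOrderOf m = 1 := le_antisymm this (addOrderOf_pos m)
    exact hm0 (AddMonoid.addOrderOf_eq_one_iff.1 h1)
  refine ⟨⟨m, hm0⟩, hnil, w, p, a, hp, hpa w, fun x => ⟨?_, ?_⟩⟩
  · -- strong induction on the order
    have main : ∀ n : ℕ, ∀ x : R, addOrderOf x = n → (∀ r, r * x = 0) → ∃ k : ℤ, x = k • w := by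
      intro n
      induction n using Nat.strong_induction_on with
      | _ n ih =>
        intro x hxn hx
        by_cases hx0 : x = 0
        · exact ⟨0, by rw [hx0, zero_smul]⟩
        obtain ⟨k, hk⟩ := hpow x
        have hk1 : k ≠ 0 := by
          rintro rfl
          rw [pow_zero] at hk
          exact hx0 (AddMonoid.addOrderOf_eq_one_iff.1 hk)
        have hpx : addOrderOf (p • x) < addOrderOf x := by
          have h1 : addOrderOf (p • x) ∣ p ^ (k - 1) := by
            apply addOrderOf_dvd_of_nsmul_eq_zero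
            rw [← mul_smul, ← pow_succ, Nat.sub_add_cancel (Nat.pos_of_ne_zero hk1), ← hk,
              addOrderOf_nsmul_eq_zero]
          have h2 := Nat.le_of_dvd (pow_pos hp.pos _) h1
          rw [hk]
          exact lt_of_le_of_lt h2 (Nat.pow_lt_pow_right hp.one_lt (by omega))
        obtain ⟨c, hc⟩ := ih _ (by rw [← hxn]; exact hpx) (p • x) rfl
          (fun r => by rw [mul_smul_comm, hx, smul_zero])
        by_cases hpc : (p : ℤ) ∣ c
        · obtain ⟨d, rfl⟩ := hpc
          set b := x - d • w with hb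
          have hbA : ∀ r, r * b = 0 := fun r => by
            rw [hb, mul_sub, hx, mul_smul_comm, hw, smul_zero, sub_zero]
          have hpb : p • b = 0 := by
            rw [hb, smul_sub, hc, mul_smul]
            simp
          by_cases hb0 : b = 0
          · exact ⟨d, by rw [← sub_eq_zero, ← hb, hb0]⟩
          obtain ⟨k1, hk1⟩ := hZ b hbA hb0 m hm
          obtain ⟨k2, hk2⟩ := hZ w hw hw0 m hm
          have hcop : IsCoprime k1 (p : ℤ) := by
            rw [isCoprime_comm, Prime.coprime_iff_not_dvd (Nat.prime_iff_prime_int.1 hp)]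
            rintro ⟨t, rfl⟩
            apply hm0
            rw [hk1, mul_comm, mul_smul]
            simp [hpb]
          obtain ⟨u, v, huv⟩ := hcop
          have hbm : b = u • m := by
            have h1 : b = (u * k1 + v * (p : ℤ)) • b := by rw [huv, one_smul]
            have h2 : (v * (p : ℤ)) • b = 0 := by
              rw [mul_smul]; simp [hpb]
            rw [h1, add_smul, h2, add_zero, mul_smul, ← hk1]
          refine ⟨d + u * k2, ?_⟩
          rw [add_smul, mul_smul, ← hk2, ← hbm, hb]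
          abel
        · exfalso
          have h1 : addOrderOf (c • w) = addOrderOf w := by
            obtain ⟨j, hj⟩ := hpow w
            have hcop : IsCoprime c ((p ^ j : ℕ) : ℤ) := by
              push_cast
              apply IsCoprime.pow_right
              rw [isCoprime_comm, Prime.coprime_iff_not_dvd (Nat.prime_iff_prime_int.1 hp)]
              exact hpc
            obtain ⟨u, v, huv⟩ := hcop
            have hwc : w = u • (c • w) := by
              have h1 : w = (u * c + v * ((p ^ j : ℕ) : ℤ)) • w := by rw [huv, one_smul]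
              have h2 : (v * ((p ^ j : ℕ) : ℤ)) • w = 0 := by
                rw [mul_smul, natCast_zsmul, ← hj, addOrderOf_nsmul_eq_zero, smul_zero]
              conv_lhs => rw [h1, add_smul, h2, add_zero, mul_smul]
            apply Nat.dvd_antisymm
            · apply addOrderOf_dvd_of_nsmul_eq_zero
              rw [smul_comm, addOrderOf_nsmul_eq_zero, smul_zero]
            · apply addOrderOf_dvd_of_nsmul_eq_zero
              nth_rewrite 2 [hwc]
              rw [smul_comm, addOrderOf_nsmul_eq_zero, smul_zero]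
          rw [hc, h1] at hpx
          exact absurd (hmax x hx) (not_le.2 hpx)
    intro hx
    exact main _ x rfl hx
  · rintro ⟨k, rfl⟩ r
    rw [mul_smul_comm, hw, smul_zero]

lemma least_of_local [Finite R] (h : LocalType R) : HasLeastIdeal R := by
  obtain ⟨e, he0, he, hdich, w, hw0, hw⟩ := h
  have hwS : ∀ n : R, IsNil n → n * w = 0 := (hw w).2 ⟨e, (he w).symm⟩
  obtain ⟨M, hM⟩ := exists_ideal (fun y : R => ∃ r, y = r * w) ⟨0, (zero_mul w).symm⟩
    (by rintro _ _ ⟨a, rfl⟩ ⟨b, rfl⟩; exact ⟨a + b, by rw [add_mul]⟩)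
    (by rintro _ ⟨a, rfl⟩; exact ⟨-a, by rw [neg_mul]⟩)
    (by rintro a _ ⟨b, rfl⟩; exact ⟨a * b, by rw [mul_assoc]⟩)
  refine ⟨M, (ne_bot_iff M).2 ⟨w, (hM w).2 ⟨e, (he w).symm⟩, hw0⟩, fun I hI => ?_⟩
  -- choose a nonzero element of `I` generating a smallest ideal
  obtain ⟨x1, hx1, hx10⟩ := (ne_bot_iff I).1 hI
  obtain ⟨x, ⟨hxI, hx0⟩, hmin⟩ := Set.exists_min_image {x : R | x ∈ I ∧ x ≠ 0}
    (fun x => (Set.range (fun r : R => r * x)).ncard) (Set.toFinite _) ⟨x1, hx1, hx10⟩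
  have hxS : ∀ n : R, IsNil n → n * x = 0 := by
    intro n hn
    by_contra hne
    have h1 := hmin (n * x) ⟨I.mul_mem_left _ _ hxI, hne⟩
    have hsub : Set.range (fun r : R => r * (n * x)) ⊆ Set.range (fun r : R => r * x) := by
      rintro _ ⟨r, rfl⟩
      exact ⟨r * n, by simp only [mul_assoc]⟩
    have heq := Set.eq_of_subset_of_ncard_le hsub h1 (Set.toFinite _)
    have hx : x ∈ Set.range (fun r : R => r * (n * x)) := by
      rw [heq]; exact ⟨e, he x⟩
    obtain ⟨r, hr⟩ := hx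
    apply hx0
    apply eq_zero_of_nil (r * n) x (nil_mul r n hn)
    rw [mul_assoc]; exact hr.symm
  obtain ⟨r, hr⟩ := (hw x).1 hxS
  have hrn : ¬ IsNil r := fun h => hx0 (by rw [hr, hwS r h])
  obtain ⟨y, hy⟩ := (hdich r).resolve_left hrn
  have hwI : w ∈ I := by
    have : w = y * x := by rw [hr, ← mul_assoc, hy, he]
    rw [this]
    exact I.mul_mem_left _ _ hxI
  intro z hz
  obtain ⟨t, rfl⟩ := (hM z).1 hz
  exact I.mul_mem_left _ _ hwI

lemma least_of_nil [Finite R] (h : NilType R) : HasLeastIdeal R := by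
  obtain ⟨⟨x2, hx2⟩, hnil, w, p, j, hp, hpj, hw⟩ := h
  -- every nonzero ideal contains a nonzero element of the annihilator
  have hann : ∀ I : TwoSidedIdeal R, (∃ x ∈ I, x ≠ 0) → ∃ x ∈ I, x ≠ 0 ∧ ∀ r, r * x = 0 := by
    intro I ⟨x1, hx1, hx10⟩
    obtain ⟨x, ⟨hxI, hx0⟩, hmin⟩ := Set.exists_min_image {x : R | x ∈ I ∧ x ≠ 0}
      (fun x => {y : R | ∃ (r : R) (k : ℤ), y = r * x + k • x}.ncard) (Set.toFinite _)
      ⟨x1, hx1, hx10⟩
    refine ⟨x, hxI, hx0, fun n => ?_⟩
    by_contra hne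
    have h1 := hmin (n * x) ⟨I.mul_mem_left _ _ hxI, hne⟩
    have hsub : {y : R | ∃ (r : R) (k : ℤ), y = r * (n * x) + k • (n * x)} ⊆
        {y : R | ∃ (r : R) (k : ℤ), y = r * x + k • x} := by
      rintro _ ⟨r, k, rfl⟩
      exact ⟨r * n + k • n, 0, by rw [zero_smul, add_zero, add_mul, mul_assoc, smul_mul_assoc]⟩
    have heq := Set.eq_of_subset_of_ncard_le hsub h1 (Set.toFinite _)
    have hx : x ∈ {y : R | ∃ (r : R) (k : ℤ), y = r * (n * x) + k • (n * x)} := by
      rw [heq]; exact ⟨0, 1, by simp⟩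
    obtain ⟨r, k, hr⟩ := hx
    apply hx0
    apply eq_zero_of_nil (r * n + k • n) x (hnil _)
    rw [add_mul, mul_assoc, smul_mul_assoc]; exact hr
  obtain ⟨x3, _, hx30, hx3⟩ := hann ⊤ ⟨x2, TwoSidedIdeal.mem_top R, hx2⟩
  obtain ⟨k3, hk3⟩ := (hw x3).1 hx3
  have hw0 : w ≠ 0 := by
    rintro rfl
    exact hx30 (by rw [hk3, smul_zero])
  have hwA : ∀ r, r * w = 0 := (hw w).2 ⟨1, by simp⟩
  obtain ⟨i, hi, hi2⟩ : ∃ i, (p ^ (i + 1)) • w = 0 ∧ (p ^ i) • w ≠ 0 := by
    classical
    have hex : ∃ i, (p ^ i) • w = 0 := ⟨j, hpj⟩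
    have h1 := Nat.find_spec hex
    have h2 : Nat.find hex ≠ 0 := by
      intro h0
      rw [h0] at h1
      exact hw0 (by simpa using h1)
    obtain ⟨i, hi⟩ := Nat.exists_eq_succ_of_ne_zero h2
    refine ⟨i, ?_, fun h => ?_⟩
    · rw [hi] at h1; exact h1
    · have := Nat.find_min' hex h
      omega
  obtain ⟨M, hM⟩ := exists_ideal (fun y : R => ∃ k : ℤ, y = k • ((p ^ i) • w)) ⟨0, by simp⟩
      (by rintro _ _ ⟨a, rfl⟩ ⟨b, rfl⟩; exact ⟨a + b, by rw [add_smul]⟩)
      (by rintro _ ⟨a, rfl⟩; exact ⟨-a, by rw [neg_smul]⟩)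
      (by rintro a _ ⟨k, rfl⟩
          exact ⟨0, by rw [mul_smul_comm, mul_smul_comm, hwA, smul_zero, smul_zero, zero_smul]⟩)
  refine ⟨M, (ne_bot_iff M).2 ⟨(p ^ i) • w, (hM _).2 ⟨1, by simp⟩, hi2⟩, fun I hI => ?_⟩
  obtain ⟨x, hxI, hx0, hx⟩ := hann I ((ne_bot_iff I).1 hI)
  obtain ⟨m, hm⟩ := (hw x).1 hx
  have hcl : ∃ l : ℤ, (p ^ i) • w = l • x := by
    obtain ⟨b, hb, hgb⟩ := (Nat.dvd_prime_pow hp).1 (Int.gcd_dvd_natAbs_right m ((p ^ (i + 1) : ℕ) : ℤ))
    have hbz := Int.gcd_eq_gcd_ab m ((p ^ (i + 1) : ℕ) : ℤ)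
    have hgb' : Int.gcd m ((p ^ (i + 1) : ℕ) : ℤ) = p ^ b := hgb
    rw [hgb'] at hbz
    set u := Int.gcdA m ((p ^ (i + 1) : ℕ) : ℤ)
    set v := Int.gcdB m ((p ^ (i + 1) : ℕ) : ℤ)
    have h1 : (p ^ b) • w = u • x := by
      have h2 : (p ^ b) • w = (((p ^ b : ℕ) : ℤ)) • w := by rw [natCast_zsmul]
      rw [h2, hbz, add_smul, mul_comm m u, mul_smul, ← hm, mul_comm _ v, mul_smul, natCast_zsmul, hi,
        smul_zero, add_zero]
    have hbi : b ≤ i := by
      by_contra hlt
      have hb1 : b = i + 1 := by omega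
      apply hx0
      rw [hm]
      have hd : ((p ^ (i + 1) : ℕ) : ℤ) ∣ m := by
        rw [← hb1, ← hgb']
        exact Int.gcd_dvd_left _ _
      obtain ⟨c, hc⟩ := hd
      rw [hc, mul_comm, mul_smul, natCast_zsmul, hi, smul_zero]
    refine ⟨((p ^ (i - b) : ℕ) : ℤ) * u, ?_⟩
    rw [mul_smul, ← h1, natCast_zsmul, ← mul_smul, ← pow_add, Nat.sub_add_cancel hbi]
  obtain ⟨l, hl⟩ := hcl
  intro z hz
  obtain ⟨k, rfl⟩ := (hM z).1 hz
  rw [hl]
  exact I.zsmul_mem _ (I.zsmul_mem _ hxI)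

lemma prd_mul_nil (s : ℕ) (hs : ∀ (x : R) (y : ℕ → R), (∀ i, IsNil (y i)) → prd x y (s + 1) = 0)
    (x : R) (y : ℕ → R) (hy : ∀ i, IsNil (y i)) (n : R) (hn : IsNil n) : n * prd x y s = 0 := by
  have h1 := hs x (Function.update y s n) (by
    intro i
    by_cases hi : i = s
    · rw [hi, Function.update_self]; exact hn
    · rw [Function.update_of_ne hi]; exact hy i)
  rw [prd, Function.update_self, prd_congr x _ y s (fun i hi => by
    rw [Function.update_of_ne (by omega)])] at h1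
  rw [mul_comm]; exact h1

lemma critical_of_least [Finite R] (h : HasLeastIdeal R) : IsCritical R := by
  obtain ⟨M, hM, hleast⟩ := h
  obtain ⟨p, hp, hpM, a, hpa⟩ := exists_prime M hM hleast
  obtain ⟨N, hN⟩ := exists_idem (R := R)
  obtain ⟨m, hm, hm0⟩ := (ne_bot_iff M).1 hM
  -- the number `s` of factors
  obtain ⟨s, ⟨x1, y1, hy1, hne1⟩, hs⟩ : ∃ s : ℕ,
      (∃ (x : R) (y : ℕ → R), (∀ i, IsNil (y i)) ∧ prd x y s ≠ 0) ∧
      ∀ (x : R) (y : ℕ → R), (∀ i, IsNil (y i)) → prd x y (s + 1) = 0 := by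
    classical
    have hex := exists_prd_zero (R := R)
    have h1 := Nat.find_spec hex
    have h0 : Nat.find hex ≠ 0 := by
      intro h0
      rw [h0] at h1
      exact hm0 (h1 m (fun _ => 0) (fun _ => ⟨0, rfl⟩))
    obtain ⟨s, hs⟩ := Nat.exists_eq_succ_of_ne_zero h0
    refine ⟨s, ?_, ?_⟩
    · have := Nat.find_min hex (m := s) (by omega)
      push Not at this
      exact this
    · rw [hs] at h1; exact h1
  -- the power of `p`
  obtain ⟨j, ⟨x2, y2, hy2, hne2⟩, hj⟩ : ∃ j : ℕ,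
      (∃ (x : R) (y : ℕ → R), (∀ i, IsNil (y i)) ∧ (p ^ j) • prd x y s ≠ 0) ∧
      ∀ (x : R) (y : ℕ → R), (∀ i, IsNil (y i)) → (p ^ (j + 1)) • prd x y s = 0 := by
    classical
    have hex : ∃ j : ℕ, ∀ (x : R) (y : ℕ → R), (∀ i, IsNil (y i)) → (p ^ j) • prd x y s = 0 :=
      ⟨a, fun x y _ => hpa _⟩
    have h1 := Nat.find_spec hex
    have h0 : Nat.find hex ≠ 0 := by
      intro h0
      rw [h0] at h1
      apply hne1
      simpa using h1 x1 y1 hy1
    obtain ⟨j, hj⟩ := Nat.exists_eq_succ_of_ne_zero h0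
    refine ⟨j, ?_, ?_⟩
    · have := Nat.find_min hex (m := j) (by omega)
      push Not at this
      exact this
    · rw [hj] at h1; exact h1
  refine ⟨nsT (prodT N s) (p ^ j), .zero, ?_, ?_⟩
  · intro I hI
    rw [holds_quot_iff]
    intro v
    rw [eval_nsT, eval_prodT]
    change (p ^ j) • prd (v 0) (fun i => gv N (v (i + 1))) s - 0 ∈ I
    rw [sub_zero]
    apply hleast I hI
    have hg : ∀ i, IsNil (gv N (v (i + 1))) := fun i => gv_nil N hN _
    set z := (p ^ j) • prd (v 0) (fun i => gv N (v (i + 1))) s with hz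
    have hpz : p • z = 0 := by
      rw [hz, ← mul_smul, ← pow_succ']
      exact hj _ _ hg
    have hnz : ∀ n : R, IsNil n → n * z = 0 := by
      intro n hn
      rw [hz, mul_smul_comm, prd_mul_nil s hs _ _ hg n hn, smul_zero]
    by_cases hz0 : z = 0
    · rw [hz0]; exact M.zero_mem
    by_cases hnil : ∀ x : R, IsNil x
    · obtain ⟨J, hJ⟩ := exists_ideal (fun y : R => ∃ k : ℤ, y = k • z) ⟨0, by simp⟩
        (by rintro _ _ ⟨a, rfl⟩ ⟨b, rfl⟩; exact ⟨a + b, by rw [add_smul]⟩)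
        (by rintro _ ⟨a, rfl⟩; exact ⟨-a, by rw [neg_smul]⟩)
        (by rintro a _ ⟨k, rfl⟩
            exact ⟨0, by rw [mul_smul_comm, hnz a (hnil a), smul_zero, zero_smul]⟩)
      have hJb : J ≠ ⊥ := (ne_bot_iff J).2 ⟨z, (hJ z).2 ⟨1, by simp⟩, hz0⟩
      obtain ⟨k, hk⟩ := (hJ m).1 (hleast J hJb hm)
      have hcop : IsCoprime k (p : ℤ) := by
        rw [isCoprime_comm, Prime.coprime_iff_not_dvd (Nat.prime_iff_prime_int.1 hp)]
        rintro ⟨t, rfl⟩
        apply hm0
        rw [hk, mul_comm, mul_smul]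
        simp [hpz]
      obtain ⟨u, w, huw⟩ := hcop
      have hzm : z = u • m := by
        have h1 : z = (u * k + w * (p : ℤ)) • z := by rw [huw, one_smul]
        have h2 : (w * (p : ℤ)) • z = 0 := by
          rw [mul_smul]; simp [hpz]
        rw [h1, add_smul, h2, add_zero, mul_smul, ← hk]
      rw [hzm]
      exact M.zsmul_mem _ hm
    · push Not at hnil
      obtain ⟨x, hx⟩ := hnil
      obtain ⟨e, he0, he, hdich, -⟩ := local_of_least M hM hleast x hx
      obtain ⟨J, hJ⟩ := exists_ideal (fun y : R => ∃ r, y = r * z) ⟨0, (zero_mul z).symm⟩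
        (by rintro _ _ ⟨a, rfl⟩ ⟨b, rfl⟩; exact ⟨a + b, by rw [add_mul]⟩)
        (by rintro _ ⟨a, rfl⟩; exact ⟨-a, by rw [neg_mul]⟩)
        (by rintro a _ ⟨b, rfl⟩; exact ⟨a * b, by rw [mul_assoc]⟩)
      have hJb : J ≠ ⊥ := (ne_bot_iff J).2 ⟨z, (hJ z).2 ⟨e, (he z).symm⟩, hz0⟩
      obtain ⟨r, hr⟩ := (hJ m).1 (hleast J hJb hm)
      have hrn : ¬ IsNil r := fun h => hm0 (by rw [hr, hnz r h])
      obtain ⟨y, hy⟩ := (hdich r).resolve_left hrn
      have : z = y * m := by rw [hr, ← mul_assoc, hy, he]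
      rw [this]
      exact M.mul_mem_left _ _ hm
  · intro hH
    have h1 := hH (fun i => match i with
      | 0 => x2
      | i + 1 => -(y2 i))
    rw [eval_nsT, eval_prodT] at h1
    apply hne2
    rw [prd_congr x2 y2 (fun i => gv N (-(y2 i))) s (fun i _ => (gv_neg N hN _ (hy2 i)).symm)]
    exact h1

end classify

/-- For a finite commutative (not necessarily unital) ring `R` the following are equivalent:
`R` is critical; `R` has a least nonzero ideal; `R` is a local ring with identity whose socle is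
simple, or `R` is a nonzero nil (hence nilpotent) ring whose annihilator is a cyclic group of
prime power order. -/
theorem result (R : Type u) [NonUnitalCommRing R] [Finite R] :
    (IsCritical R ↔ HasLeastIdeal R) ∧ (IsCritical R ↔ (LocalType R ∨ NilType R)) := by
  have h2 : HasLeastIdeal R ↔ (LocalType R ∨ NilType R) := by
    constructor
    · rintro ⟨M, hM, hleast⟩
      by_cases h : ∀ x : R, IsNil x
      · exact Or.inr (nil_of_least M hM hleast h)
      · push Not at h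
        obtain ⟨x, hx⟩ := h
        exact Or.inl (local_of_least M hM hleast x hx)
    · rintro (h | h)
      · exact least_of_local h
      · exact least_of_nil h
  have h1 : IsCritical R ↔ HasLeastIdeal R := ⟨least_of_critical, critical_of_least⟩
  exact ⟨h1, h1.trans h2⟩

end Pool.Agent.Results.MP_c0911c_al.CriticalRings
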